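import Pool.Agent.Work.MP_9667ca_an.Odd.Main

/-!
# MP_9667ca_an: the extremal spaces in odd dimensions

`alpha E` is the constant `α(E) = ‖id : min(E) → max(E)‖_cb` and `alphaDim n = α(n)`, see
`Pool/Agent/Work/MP_9667ca_an/Space.lean`.  The spaces range over an arbitrary universe `u` and the
Hilbert spaces in the definition of `max(E)` over an arbitrary universe `v`.
-/

namespace Pool.Agent.Results.MP_9667ca_an.OddExtremal

open Pool.MinMax Pool.MinMax.Odd

universe u v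

/-- For every `n ≥ 1`: every complex normed space `E` of dimension `n` has `α(E) ≤ (n + 1) / 2`, with
equality only if `E` is isometric to the Hilbert space `ℓ₂ⁿ`. If `n` is odd, then
`α(n) = (n + 1) / 2`, and `α(E) = α(n)` if and only if `E` is isometric to `ℓ₂ⁿ`. If `n` is even, then
`√(n (n + 2)) / 2 ≤ α(n)`. -/
theorem result (n : ℕ) (hn : 1 ≤ n) :
    (∀ (E : Type u) [NormedAddCommGroup E] [NormedSpace ℂ E], Module.finrank ℂ E = n →
      alpha.{u, v} E ≤ ENNReal.ofReal (((n : ℝ) + 1) / 2) ∧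
      (alpha.{u, v} E = ENNReal.ofReal (((n : ℝ) + 1) / 2) →
        Nonempty (E ≃ₗᵢ[ℂ] EuclideanSpace ℂ (Fin n)))) ∧
    (Odd n → alphaDim.{u, v} n = ENNReal.ofReal (((n : ℝ) + 1) / 2) ∧
      ∀ (E : Type u) [NormedAddCommGroup E] [NormedSpace ℂ E], Module.finrank ℂ E = n →
        (alpha.{u, v} E = alphaDim.{u, v} n ↔
          Nonempty (E ≃ₗᵢ[ℂ] EuclideanSpace ℂ (Fin n)))) ∧
    (Even n → ENNReal.ofReal (√((n : ℝ) * (n + 2)) / 2) ≤ alphaDim.{u, v} n) :=
  ⟨fun _ _ _ hE => ⟨alpha_le hn hE, isometry_of_eq hn hE⟩,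
    fun hodd => ⟨alphaDim_odd hodd, fun _ _ _ hE => alpha_eq_iff_odd hodd hE⟩,
    fun heven => le_alphaDim_even hn heven⟩

end Pool.Agent.Results.MP_9667ca_an.OddExtremal
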