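import Pool.Agent.Work.MP_9667ca_an.Main

/-!
# MP_9667ca_an: the extremal spaces of dimension two

`alpha E` is the constant `α(E) = ‖id : min(E) → max(E)‖_cb` and `alphaDim n = α(n)`, see
`Pool/Agent/Work/MP_9667ca_an/Space.lean`.  The spaces range over an arbitrary universe `u` and the
Hilbert spaces in the definition of `max(E)` over an arbitrary universe `v`.
-/

namespace Pool.Agent.Results.MP_9667ca_an.PlaneExtremal

open Pool.MinMax

universe u v

/-- `α(2) = √2`, and a two-dimensional complex normed space `E` has `α(E) = α(2)` if and only if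
it is isometric to the Hilbert space `ℓ₂²`. -/
theorem result :
    alphaDim.{u, v} 2 = ENNReal.ofReal √2 ∧
    ∀ (E : Type u) [NormedAddCommGroup E] [NormedSpace ℂ E], Module.finrank ℂ E = 2 →
      alpha.{u, v} E ≤ ENNReal.ofReal √2 ∧
      (alpha.{u, v} E = alphaDim.{u, v} 2 ↔
        Nonempty (E ≃ₗᵢ[ℂ] EuclideanSpace ℂ (Fin 2))) := by
  have h2 : alphaDim.{u, v} 2 = ENNReal.ofReal √2 := by
    apply le_antisymm
    · unfold alphaDim
      refine iSup_le fun E => iSup_le fun _ => iSup_le fun _ => iSup_le fun _ => iSup_le fun h => ?_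
      exact alpha_le_sqrt_two h
    · -- the space `ℓ₂²` in the universe `u`
      let e : EuclideanSpace ℂ (ULift.{u} (Fin 2)) ≃ₗᵢ[ℂ] EuclideanSpace ℂ (Fin 2) :=
        LinearIsometryEquiv.piLpCongrLeft 2 ℂ ℂ Equiv.ulift
      have h := le_alpha_of_isometry.{u, v} e
      refine h.trans ?_
      unfold alphaDim
      refine le_iSup_of_le (EuclideanSpace ℂ (ULift.{u} (Fin 2))) ?_
      refine le_iSup_of_le inferInstance (le_iSup_of_le inferInstance
        (le_iSup_of_le inferInstance (le_iSup_of_le ?_ le_rfl)))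
      simp
  refine ⟨h2, fun E _ _ hE => ⟨alpha_le_sqrt_two hE, ?_⟩⟩
  rw [h2]
  constructor
  · intro h
    rcases isometry_or_lt.{u, v} hE with h1 | h1
    · exact h1
    · exact absurd h h1.ne
  · rintro ⟨e⟩
    exact le_antisymm (alpha_le_sqrt_two hE) (le_alpha_of_isometry e)

end Pool.Agent.Results.MP_9667ca_an.PlaneExtremal
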